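import Pool.Agent.CDI.Fin

/-!
# MP_dda9b2_co, Q1: asymptotically almost all maximal Condorcet domains are irreducible

Definitions (all in `Pool.Agent.CDI.Base`):
* `LOrd (Fin n)`: linear orders on the alternatives, `r.lt a b` = `a` is above `b` in `r`;
* `Latin r s t a b c`: `r`, `s`, `t` list `a, b, c` as `abc`, `bca`, `cab`;
* `IsCD S`: no three members of `S` and no three alternatives form such a Latin square;
* `MaxCD S`: `S` is a Condorcet domain not properly contained in another one;
* `DomM n`: the maximal Condorcet domains of degree `n`; `isoSetoid n`: renaming the alternatives by a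
  permutation; `mm n` (= `m_n`): the number of isomorphism classes;
* `Reducible S`: some `B ≠ Fin n` with at least two elements is a block of consecutive elements in
  every member of `S`; `rr n` (= `r_n`): the number of classes with a reducible member.
-/

namespace Pool.Agent.Results.MP_dda9b2_co.AlmostAllIrreducible

open Pool.Agent.CDI Filter Topology

/-- `m_n > 0` for all `n` and `r_n / m_n → 0`. -/
theorem result : (∀ n, 0 < mm n) ∧
    Tendsto (fun n : ℕ => (rr n : ℝ) / (mm n : ℝ)) atTop (𝓝 0) :=
  ⟨mm_pos, main⟩

end Pool.Agent.Results.MP_dda9b2_co.AlmostAllIrreducible
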